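import Mathlib

/-!
# Hypergraphs preserved by many involutions

`F` is an `r`-graph with an edge in every `(r + 1)`-set. If `τ` is an involution preserving `F` and
`S` is a set of `r + 1` points consisting of orbits of length two of `τ` (and possibly a fixed
point), then with `S.erase x` also `S.erase (τ x)` is an edge.
-/

set_option autoImplicit false

open Finset

namespace Pool.Agent.V11328.PG

variable {V : Type} [Fintype V] [DecidableEq V]

/-- the points `x j` and their images -/
def gg (τ : Equiv.Perm V) {s : ℕ} (x : Fin s → V) : Fin s × Bool → V :=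
  fun p => if p.2 then τ (x p.1) else x p.1

/-- `x 0, τ (x 0), x 1, τ (x 1), ...` are different points -/
def Good (τ : Equiv.Perm V) {s : ℕ} (x : Fin s → V) : Prop := Function.Injective (gg τ x)

/-- the set of the points -/
def pts (τ : Equiv.Perm V) {s : ℕ} (x : Fin s → V) : Finset V := univ.image (gg τ x)

omit [Fintype V] [DecidableEq V] in
@[simp] theorem gg_false (τ : Equiv.Perm V) {s : ℕ} (x : Fin s → V) (j : Fin s) :
    gg τ x (j, false) = x j := rfl

omit [Fintype V] [DecidableEq V] in
@[simp] theorem gg_true (τ : Equiv.Perm V) {s : ℕ} (x : Fin s → V) (j : Fin s) :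
    gg τ x (j, true) = τ (x j) := rfl

omit [Fintype V] in
theorem mem_pts {τ : Equiv.Perm V} {s : ℕ} {x : Fin s → V} {y : V} :
    y ∈ pts τ x ↔ ∃ j, y = x j ∨ y = τ (x j) := by
  unfold pts
  simp only [mem_image, mem_univ, true_and, Prod.exists, Bool.exists_bool, gg_false, gg_true]
  constructor
  · rintro ⟨j, h | h⟩
    · exact ⟨j, Or.inl h.symm⟩
    · exact ⟨j, Or.inr h.symm⟩
  · rintro ⟨j, h | h⟩
    · exact ⟨j, Or.inl h.symm⟩
    · exact ⟨j, Or.inr h.symm⟩

omit [Fintype V] in
theorem pts_card {τ : Equiv.Perm V} {s : ℕ} {x : Fin s → V} (h : Good τ x) :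
    (pts τ x).card = 2 * s := by
  unfold pts
  rw [card_image_of_injective _ h, card_univ, Fintype.card_prod, Fintype.card_fin,
    Fintype.card_bool, mul_comm]

omit [Fintype V] in
theorem pts_inv {τ : Equiv.Perm V} (hτ : ∀ y, τ (τ y) = y) {s : ℕ} {x : Fin s → V} {y : V} :
    τ y ∈ pts τ x ↔ y ∈ pts τ x := by
  rw [mem_pts, mem_pts]
  constructor
  · rintro ⟨j, h | h⟩
    · exact ⟨j, Or.inr (by rw [← h, hτ])⟩
    · exact ⟨j, Or.inl (τ.injective h)⟩
  · rintro ⟨j, h | h⟩
    · exact ⟨j, Or.inr (by rw [h])⟩
    · exact ⟨j, Or.inl (by rw [h, hτ])⟩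

omit [Fintype V] in
theorem pts_moved {τ : Equiv.Perm V} (hτ : ∀ y, τ (τ y) = y) {s : ℕ} {x : Fin s → V}
    (h : Good τ x) {y : V} (hy : y ∈ pts τ x) : τ y ≠ y := by
  rw [mem_pts] at hy
  obtain ⟨j, rfl | rfl⟩ := hy
  · intro e
    have : gg τ x (j, true) = gg τ x (j, false) := e
    simpa using h this
  · intro e
    rw [hτ] at e
    have : gg τ x (j, true) = gg τ x (j, false) := e.symm
    simpa using h this

omit [Fintype V] in
theorem good_cons {τ : Equiv.Perm V} (hτ : ∀ y, τ (τ y) = y) {s : ℕ} (y : V) (x : Fin s → V) :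
    Good τ (Fin.cons y x : Fin (s + 1) → V) ↔ Good τ x ∧ τ y ≠ y ∧ y ∉ pts τ x := by
  constructor
  · intro h
    refine ⟨?_, ?_, ?_⟩
    · rintro ⟨i, b⟩ ⟨j, c⟩ e
      have e' : gg τ (Fin.cons y x : Fin (s + 1) → V) (i.succ, b) =
          gg τ (Fin.cons y x : Fin (s + 1) → V) (j.succ, c) := by
        simpa [gg] using e
      have := h e'
      simpa using this
    · intro e
      have e' : gg τ (Fin.cons y x : Fin (s + 1) → V) (0, true) =
          gg τ (Fin.cons y x : Fin (s + 1) → V) (0, false) := by simpa [gg] using e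
      simpa using h e'
    · intro hy
      rw [mem_pts] at hy
      obtain ⟨j, e | e⟩ := hy
      · have e' : gg τ (Fin.cons y x : Fin (s + 1) → V) (0, false) =
            gg τ (Fin.cons y x : Fin (s + 1) → V) (j.succ, false) := by simpa [gg] using e
        have := h e'
        simp only [Prod.mk.injEq] at this
        exact (Fin.succ_ne_zero j) this.1.symm
      · have e' : gg τ (Fin.cons y x : Fin (s + 1) → V) (0, false) =
            gg τ (Fin.cons y x : Fin (s + 1) → V) (j.succ, true) := by simpa [gg] using e
        have := h e'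
        simp at this
  · rintro ⟨h1, h2, h3⟩
    have h3' : τ y ∉ pts τ x := fun h => h3 ((pts_inv hτ).1 h)
    rw [mem_pts] at h3 h3'
    push Not at h3 h3'
    rintro ⟨i, b⟩ ⟨j, c⟩ e
    induction i using Fin.cases with
    | zero =>
      induction j using Fin.cases with
      | zero =>
        cases b <;> cases c <;> simp [gg] at e ⊢
        · exact absurd e.symm h2
        · exact absurd e h2
      | succ j =>
        exfalso
        cases b <;> cases c <;> simp [gg] at e
        · exact (h3 j).1 e
        · exact (h3 j).2 e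
        · exact (h3' j).1 e
        · exact (h3 j).1 e
    | succ i =>
      induction j using Fin.cases with
      | zero =>
        exfalso
        cases b <;> cases c <;> simp [gg] at e
        · exact (h3 i).1 e.symm
        · exact (h3' i).1 e.symm
        · exact (h3 i).2 e.symm
        · exact (h3 i).1 e.symm
      | succ j =>
        have e' : gg τ x (i, b) = gg τ x (j, c) := by simpa [gg] using e
        have := h1 e'
        simp only [Prod.mk.injEq] at this ⊢
        exact ⟨by rw [this.1], this.2⟩

open Classical in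
theorem count {τ : Equiv.Perm V} (hτ : ∀ y, τ (τ y) = y) (s : ℕ) :
    ((univ : Finset (Fin s → V)).filter (Good τ)).card =
      ∏ j ∈ range s, (τ.support.card - 2 * j) := by
  induction s with
  | zero =>
    rw [range_zero, prod_empty, card_eq_one]
    refine ⟨Fin.elim0, ?_⟩
    ext x
    simp only [mem_filter, mem_univ, true_and, mem_singleton]
    constructor
    · intro _
      exact Subsingleton.elim _ _
    · rintro rfl ⟨i, _⟩
      exact i.elim0
  | succ s ih =>
    rw [prod_range_succ, ← ih, card_filter,
      ← Equiv.sum_comp (Fin.consEquiv (fun _ : Fin (s + 1) => V)), Fintype.sum_prod_type_right,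
      card_filter, sum_mul]
    refine sum_congr rfl fun x _ => ?_
    have h : ∀ y : V, (if Good τ ((Fin.consEquiv (fun _ : Fin (s + 1) => V)) (y, x)) then 1 else 0) =
        if Good τ x then (if τ y ≠ y ∧ y ∉ pts τ x then 1 else 0) else (0 : ℕ) := by
      intro y
      have : Good τ ((Fin.consEquiv (fun _ : Fin (s + 1) => V)) (y, x)) ↔
          Good τ x ∧ τ y ≠ y ∧ y ∉ pts τ x := good_cons hτ y x
      by_cases h1 : Good τ x
      · simp only [this, h1, true_and, if_true]
      · simp only [this, h1, false_and, if_false]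
    rw [sum_congr rfl fun y _ => h y]
    by_cases h1 : Good τ x
    · simp only [h1, if_true, one_mul]
      rw [← card_filter]
      have h2 : (univ.filter fun y : V => τ y ≠ y ∧ y ∉ pts τ x) = τ.support \ pts τ x := by
        ext y
        simp [Equiv.Perm.mem_support]
      rw [h2, card_sdiff_of_subset, pts_card h1]
      intro y hy
      rw [Equiv.Perm.mem_support]
      exact pts_moved hτ h1 hy
    · simp [h1]

open Classical in
/-- orderings of the members of `F` -/
theorem ord_card {ι : Type} [Fintype ι] [DecidableEq ι] (F : Finset (Finset V)) {r : ℕ}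
    (hr : Fintype.card ι = r) (hF : ∀ e ∈ F, e.card = r) :
    ((univ : Finset (ι → V)).filter fun f => Function.Injective f ∧ univ.image f ∈ F).card ≤
      r.factorial * F.card := by
  have h : ((univ : Finset (ι → V)).filter fun f => Function.Injective f ∧ univ.image f ∈ F) ⊆
      F.biUnion fun e => (univ : Finset (ι → V)).filter
        fun f => Function.Injective f ∧ univ.image f = e := by
    intro f hf
    rw [mem_filter] at hf
    rw [mem_biUnion]
    exact ⟨_, hf.2.2, mem_filter.2 ⟨mem_univ _, hf.2.1, rfl⟩⟩
  refine (card_le_card h).trans (card_biUnion_le.trans ?_)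
  rw [mul_comm]
  refine (sum_le_card_nsmul _ _ r.factorial fun e he => ?_).trans (by rw [smul_eq_mul])
  have h2 : Fintype.card (ι ↪ {x // x ∈ e}) = r.factorial := by
    rw [Fintype.card_embedding_eq, Fintype.card_coe, hF e he, hr, Nat.descFactorial_self]
  rw [← h2, ← card_univ]
  refine card_le_card_of_surjOn (fun φ => fun i => (φ i : V)) ?_
  intro f hf
  simp only [coe_filter, mem_univ, true_and, Set.mem_ofPred_eq] at hf
  refine ⟨⟨fun i => ⟨f i, hf.2 ▸ mem_image_of_mem f (mem_univ i)⟩, ?_⟩, by simp, rfl⟩
  intro i j hij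
  exact hf.1 (by simpa using hij)

end Pool.Agent.V11328.PG
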