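import Pool.Agent.V11328.PG.Abs

/-!
# The two inequalities
-/

set_option autoImplicit false

open Finset

namespace Pool.Agent.V11328.PG

variable {V : Type} [Fintype V] [DecidableEq V]

omit [Fintype V] in
theorem erase_image {τ : Equiv.Perm V} {S : Finset V} (hS : ∀ y, y ∈ S → τ y ∈ S) (w : V)
    (h2 : ∀ y, τ (τ y) = y) : (S.erase w).image τ = S.erase (τ w) := by
  ext y
  simp only [mem_image, mem_erase]
  constructor
  · rintro ⟨z, ⟨h1, h3⟩, rfl⟩
    exact ⟨fun h => h1 (τ.injective h), hS z h3⟩
  · rintro ⟨h1, h3⟩
    refine ⟨τ y, ⟨?_, hS y h3⟩, h2 y⟩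
    intro h
    apply h1
    rw [← h, h2]

/-- `τ` exchanges the pairs of `y` -/
def Swaps {k : ℕ} (τ : Equiv.Perm V) (y : Fin k × Bool → V) : Prop :=
  ∀ j, τ (y (j, false)) = y (j, true)

open Classical in
/-- Odd uniformity. -/
theorem odd_bound {k l : ℕ} (F : Finset (Finset V)) (hF : ∀ e ∈ F, e.card = 2 * k + 1)
    (hcov : ∀ S : Finset V, S.card = 2 * k + 2 → ∃ e ∈ F, e ⊆ S) (T : Finset (Equiv.Perm V))
    (hT : ∀ τ ∈ T, ∀ y, τ (τ y) = y) (hinv : ∀ τ ∈ T, ∀ e ∈ F, e.image τ ∈ F)
    (hl : ∀ y : Fin k × Bool → V, Function.Injective y →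
      (T.filter fun τ => Swaps τ y).card ≤ l) :
    ∑ τ ∈ T, ∏ j ∈ range (k + 1), (τ.support.card - 2 * j) ≤
      (k + 1) * (l * ((2 * k + 1).factorial * F.card)) := by
  set O := ((univ : Finset (Option (Fin k × Bool) → V)).filter
    fun f => Function.Injective f ∧ univ.image f ∈ F) with hO
  have hOc : O.card ≤ (2 * k + 1).factorial * F.card := by
    apply ord_card F _ hF
    rw [Fintype.card_option, Fintype.card_prod, Fintype.card_fin, Fintype.card_bool]
    ring
  set A := (T ×ˢ (univ : Finset (Fin (k + 1) → V))).filter fun q => Good q.1 q.2 with hA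
  have hAc : A.card = ∑ τ ∈ T, ∏ j ∈ range (k + 1), (τ.support.card - 2 * j) := by
    rw [hA, card_filter, sum_product]
    refine sum_congr rfl fun τ hτ => ?_
    rw [← count (hT τ hτ) (k + 1), card_filter]
  rw [← hAc]
  set B := fun i : Fin (k + 1) => A.filter fun q => (pts q.1 q.2).erase (q.1 (q.2 i)) ∈ F with hB
  have hAB : A ⊆ univ.biUnion B := by
    rintro ⟨τ, x⟩ hq
    have hq' := hq
    rw [hA, mem_filter, mem_product] at hq'
    obtain ⟨⟨hτ, -⟩, hg⟩ := hq'
    simp only at hτ hg
    have hc := pts_card hg
    obtain ⟨e, he, hsub⟩ := hcov (pts τ x) (by rw [hc]; ring)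
    have h1 : (pts τ x \ e).card = 1 := by
      rw [card_sdiff_of_subset hsub, hc, hF e he]
      omega
    obtain ⟨w, hw⟩ := card_eq_one.1 h1
    have hwm : w ∈ pts τ x ∧ w ∉ e := by
      have : w ∈ pts τ x \ e := by rw [hw]; exact mem_singleton_self w
      rwa [mem_sdiff] at this
    have he2 : e = (pts τ x).erase w := by
      rw [← sdiff_singleton_eq_erase, ← hw, Finset.sdiff_sdiff_eq_self hsub]
    rw [mem_biUnion]
    obtain ⟨i, hi⟩ := mem_pts.1 hwm.1
    refine ⟨i, mem_univ _, ?_⟩
    rw [hB]
    simp only [mem_filter]
    refine ⟨hq, ?_⟩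
    rcases hi with hi | hi
    · have := hinv τ hτ e he
      rw [he2, erase_image (fun y hy => (pts_inv (hT τ hτ)).2 hy) w (hT τ hτ), hi] at this
      exact this
    · rw [← hi, ← he2]
      exact he
  have hBi : ∀ i, (B i).card ≤ l * O.card := by
    intro i
    have h1 : (B i).card ≤ (O.sigma fun f => T.filter fun τ =>
        Swaps τ fun p : Fin k × Bool => f (some p)).card := by
      refine card_le_card_of_injOn (fun q => ⟨fun o => o.elim (q.2 i)
        fun p => gg q.1 q.2 (i.succAbove p.1, p.2), q.1⟩) ?_ ?_
      · rintro ⟨τ, x⟩ hq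
        rw [hB] at hq
        simp only [coe_filter, Set.mem_ofPred_eq] at hq
        obtain ⟨hqA, hqF⟩ := hq
        rw [hA, mem_filter, mem_product] at hqA
        obtain ⟨⟨hτ, -⟩, hg⟩ := hqA
        simp only at hτ hg
        simp only [coe_sigma, Set.mem_sigma_iff, mem_coe, mem_filter]
        refine ⟨?_, hτ, ?_⟩
        · rw [hO, mem_filter]
          have hinj : Function.Injective (fun o : Option (Fin k × Bool) => o.elim (x i)
              fun p => gg τ x (i.succAbove p.1, p.2)) := by
            rintro (_ | ⟨a, b⟩) (_ | ⟨c, d⟩) h
            · rfl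
            · exfalso
              simp only [Option.elim_none, Option.elim_some] at h
              have h' : gg τ x (i, false) = gg τ x (i.succAbove c, d) := h
              have := hg h'
              rw [Prod.mk.injEq] at this
              exact Fin.succAbove_ne i c this.1.symm
            · exfalso
              simp only [Option.elim_none, Option.elim_some] at h
              have h' : gg τ x (i.succAbove a, b) = gg τ x (i, false) := h
              have := hg h'
              rw [Prod.mk.injEq] at this
              exact Fin.succAbove_ne i a this.1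
            · simp only [Option.elim_some] at h
              have := hg h
              rw [Prod.mk.injEq] at this
              rw [Option.some.injEq, Prod.mk.injEq]
              exact ⟨Fin.succAbove_right_injective this.1, this.2⟩
          refine ⟨mem_univ _, hinj, ?_⟩
          have him : (univ.image fun o : Option (Fin k × Bool) => o.elim (x i)
              fun p => gg τ x (i.succAbove p.1, p.2)) = (pts τ x).erase (τ (x i)) := by
            apply eq_of_subset_of_card_le
            · intro y hy
              rw [mem_image] at hy
              obtain ⟨o, -, rfl⟩ := hy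
              rw [mem_erase]
              rcases o with _ | ⟨a, b⟩
              · simp only [Option.elim_none]
                refine ⟨fun h => ?_, mem_pts.2 ⟨i, Or.inl rfl⟩⟩
                exact (pts_moved (hT τ hτ) hg (mem_pts.2 ⟨i, Or.inl rfl⟩) :
                  τ (x i) ≠ x i) h.symm
              · simp only [Option.elim_some]
                refine ⟨fun h => ?_, mem_image_of_mem _ (mem_univ _)⟩
                have h' : gg τ x (i.succAbove a, b) = gg τ x (i, true) := h
                have := hg h'
                rw [Prod.mk.injEq] at this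
                exact Fin.succAbove_ne i a this.1
            · rw [card_erase_of_mem (mem_pts.2 ⟨i, Or.inr rfl⟩), pts_card hg,
                card_image_of_injective _ hinj, card_univ, Fintype.card_option,
                Fintype.card_prod, Fintype.card_fin, Fintype.card_bool]
              omega
          rw [him]
          exact hqF
        · intro j
          simp [gg]
      · rintro ⟨τ, x⟩ hq ⟨τ', x'⟩ hq' h
        simp only [Sigma.mk.injEq, heq_eq_eq] at h
        obtain ⟨h1, rfl⟩ := h
        rw [Prod.mk.injEq]
        refine ⟨rfl, ?_⟩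
        funext j
        by_cases hj : j = i
        · have := congrFun h1 none
          simp only [Option.elim_none] at this
          rw [hj]
          exact this
        · obtain ⟨j', rfl⟩ := Fin.exists_succAbove_eq hj
          have := congrFun h1 (some (j', false))
          simpa [gg] using this
    refine h1.trans ?_
    rw [card_sigma, mul_comm]
    refine (sum_le_card_nsmul _ _ l fun f hf => ?_).trans (by rw [smul_eq_mul])
    apply hl
    rw [hO, mem_filter] at hf
    intro p q hpq
    exact Option.some_injective _ (hf.2.1 hpq)
  calc A.card ≤ ∑ i, (B i).card := (card_le_card hAB).trans card_biUnion_le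
    _ ≤ ∑ _i : Fin (k + 1), l * O.card := sum_le_sum fun i _ => hBi i
    _ = (k + 1) * (l * O.card) := by
      rw [sum_const, card_univ, Fintype.card_fin, smul_eq_mul]
    _ ≤ _ := Nat.mul_le_mul_left _ (Nat.mul_le_mul_left _ hOc)

end Pool.Agent.V11328.PG
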