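import Pool.Agent.V11328.PG.Bound

/-!
# Even uniformity
-/

set_option autoImplicit false

open Finset

namespace Pool.Agent.V11328.PG

variable {V : Type} [Fintype V] [DecidableEq V]

/-- the fixed points -/
def fixd (τ : Equiv.Perm V) : Finset V := univ.filter fun p => τ p = p

open Classical in
/-- Even uniformity. -/
theorem even_bound {k μ ν : ℕ} (F : Finset (Finset V)) (hF : ∀ e ∈ F, e.card = 2 * k + 2)
    (hcov : ∀ S : Finset V, S.card = 2 * k + 3 → ∃ e ∈ F, e ⊆ S) (T : Finset (Equiv.Perm V))
    (hT : ∀ τ ∈ T, ∀ y, τ (τ y) = y) (hinv : ∀ τ ∈ T, ∀ e ∈ F, e.image τ ∈ F)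
    (hμ : ∀ y : Fin (k + 1) × Bool → V, Function.Injective y →
      ∑ τ ∈ T.filter (fun τ => Swaps τ y), (fixd τ).card ≤ μ)
    (hν : ∀ z : Option (Fin k × Bool) → V, Function.Injective z →
      (T.filter fun τ => τ (z none) = z none ∧ Swaps τ fun p => z (some p)).card ≤ ν) :
    ∑ τ ∈ T, (fixd τ).card * ∏ j ∈ range (k + 1), (τ.support.card - 2 * j) ≤
      (μ + (k + 1) * ν) * ((2 * k + 2).factorial * F.card) := by
  set O := ((univ : Finset (Option (Option (Fin k × Bool)) → V)).filter
    fun f => Function.Injective f ∧ univ.image f ∈ F) with hO
  set O' := ((univ : Finset (Fin (k + 1) × Bool → V)).filter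
    fun f => Function.Injective f ∧ univ.image f ∈ F) with hO'
  have hOc : O.card ≤ (2 * k + 2).factorial * F.card := by
    apply ord_card F _ hF
    rw [Fintype.card_option, Fintype.card_option, Fintype.card_prod, Fintype.card_fin,
      Fintype.card_bool]
    ring
  have hOc' : O'.card ≤ (2 * k + 2).factorial * F.card := by
    apply ord_card F _ hF
    rw [Fintype.card_prod, Fintype.card_fin, Fintype.card_bool]
    ring
  set A := (T ×ˢ ((univ : Finset V) ×ˢ (univ : Finset (Fin (k + 1) → V)))).filter
    fun q => q.1 q.2.1 = q.2.1 ∧ Good q.1 q.2.2 with hA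
  have hAc : A.card = ∑ τ ∈ T, (fixd τ).card * ∏ j ∈ range (k + 1), (τ.support.card - 2 * j) := by
    rw [hA, card_filter, sum_product]
    refine sum_congr rfl fun τ hτ => ?_
    rw [← count (hT τ hτ) (k + 1), fixd, ← card_product, ← filter_product, card_filter]
  rw [← hAc]
  set C := A.filter fun q => pts q.1 q.2.2 ∈ F with hC
  set B := fun i : Fin (k + 1) => A.filter fun q =>
    (insert q.2.1 (pts q.1 q.2.2)).erase (q.1 (q.2.2 i)) ∈ F with hB
  have key : ∀ {τ : Equiv.Perm V} {p : V} {x : Fin (k + 1) → V}, τ ∈ T → τ p = p → Good τ x →
      p ∉ pts τ x := by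
    intro τ p x hτ hp hg h
    exact pts_moved (hT τ hτ) hg h hp
  have hAB : A ⊆ C ∪ univ.biUnion B := by
    rintro ⟨τ, p, x⟩ hq
    have hq' := hq
    rw [hA, mem_filter, mem_product] at hq'
    obtain ⟨⟨hτ, -⟩, hp, hg⟩ := hq'
    simp only at hτ hp hg
    have hpn := key hτ hp hg
    have hc : (insert p (pts τ x)).card = 2 * k + 3 := by
      rw [card_insert_of_notMem hpn, pts_card hg]
      ring
    obtain ⟨e, he, hsub⟩ := hcov (insert p (pts τ x)) hc
    have h1 : (insert p (pts τ x) \ e).card = 1 := by
      rw [card_sdiff_of_subset hsub, hc, hF e he]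
      omega
    obtain ⟨w, hw⟩ := card_eq_one.1 h1
    have hwm : w ∈ insert p (pts τ x) ∧ w ∉ e := by
      have : w ∈ insert p (pts τ x) \ e := by rw [hw]; exact mem_singleton_self w
      rwa [mem_sdiff] at this
    have he2 : e = (insert p (pts τ x)).erase w := by
      rw [← sdiff_singleton_eq_erase, ← hw, Finset.sdiff_sdiff_eq_self hsub]
    rcases mem_insert.1 hwm.1 with hwp | hwx
    · apply mem_union_left
      rw [hC, mem_filter]
      refine ⟨hq, ?_⟩
      rw [he2, hwp, erase_insert hpn] at he
      exact he
    · apply mem_union_right
      rw [mem_biUnion]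
      obtain ⟨i, hi⟩ := mem_pts.1 hwx
      refine ⟨i, mem_univ _, ?_⟩
      rw [hB]
      simp only [mem_filter]
      refine ⟨hq, ?_⟩
      rcases hi with hi | hi
      · have := hinv τ hτ e he
        rw [he2, erase_image (fun y hy => ?_) w (hT τ hτ), hi] at this
        · exact this
        · rcases mem_insert.1 hy with rfl | hy
          · rw [hp]; exact mem_insert_self _ _
          · exact mem_insert_of_mem ((pts_inv (hT τ hτ)).2 hy)
      · rw [← hi, ← he2]
        exact he
  have hCc : C.card ≤ μ * O'.card := by
    have h1 : C.card ≤ (O'.sigma fun f => (T.filter fun τ => Swaps τ f).sigma fun τ =>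
        fixd τ).card := by
      refine card_le_card_of_injOn (fun q => ⟨gg q.1 q.2.2, q.1, q.2.1⟩) ?_ ?_
      · rintro ⟨τ, p, x⟩ hq
        rw [hC] at hq
        simp only [coe_filter, Set.mem_ofPred_eq] at hq
        obtain ⟨hqA, hqF⟩ := hq
        rw [hA, mem_filter, mem_product] at hqA
        obtain ⟨⟨hτ, -⟩, hp, hg⟩ := hqA
        simp only at hτ hp hg
        simp only [coe_sigma, Set.mem_sigma_iff, mem_coe, mem_filter]
        refine ⟨?_, ⟨hτ, ?_⟩, ?_⟩
        · rw [hO', mem_filter]
          exact ⟨mem_univ _, hg, hqF⟩
        · intro j
          simp [gg]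
        · rw [fixd, mem_filter]
          exact ⟨mem_univ _, hp⟩
      · rintro ⟨τ, p, x⟩ hq ⟨τ', p', x'⟩ hq' h
        simp only [Sigma.mk.injEq, heq_eq_eq] at h
        obtain ⟨h1, h2⟩ := h
        obtain ⟨rfl, h3⟩ := h2
        rw [Prod.mk.injEq, Prod.mk.injEq]
        refine ⟨rfl, by simpa using h3, ?_⟩
        funext j
        have := congrFun h1 (j, false)
        simpa using this
    refine h1.trans ?_
    rw [card_sigma, mul_comm]
    refine (sum_le_card_nsmul _ _ μ fun f hf => ?_).trans (by rw [smul_eq_mul])
    rw [card_sigma]
    apply hμ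
    rw [hO', mem_filter] at hf
    exact hf.2.1
  have hBi : ∀ i, (B i).card ≤ ν * O.card := by
    intro i
    have h1 : (B i).card ≤ (O.sigma fun f => T.filter fun τ => τ (f (some none)) = f (some none) ∧
        Swaps τ fun p : Fin k × Bool => f (some (some p))).card := by
      refine card_le_card_of_injOn (fun q => ⟨fun o => o.elim (q.2.2 i) fun o' => o'.elim q.2.1
        fun p => gg q.1 q.2.2 (i.succAbove p.1, p.2), q.1⟩) ?_ ?_
      · rintro ⟨τ, p, x⟩ hq
        rw [hB] at hq
        simp only [coe_filter, Set.mem_ofPred_eq] at hq
        obtain ⟨hqA, hqF⟩ := hq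
        rw [hA, mem_filter, mem_product] at hqA
        obtain ⟨⟨hτ, -⟩, hp, hg⟩ := hqA
        simp only at hτ hp hg
        have hpn := key hτ hp hg
        have hpn' : ∀ c d, gg τ x (c, d) ≠ p := by
          intro c d h
          apply hpn
          rw [← h]
          exact mem_image_of_mem _ (mem_univ _)
        simp only [coe_sigma, Set.mem_sigma_iff, mem_coe, mem_filter]
        refine ⟨?_, hτ, ?_, ?_⟩
        · rw [hO, mem_filter]
          have hinj : Function.Injective (fun o : Option (Option (Fin k × Bool)) => o.elim (x i)
              fun o' => o'.elim p fun p => gg τ x (i.succAbove p.1, p.2)) := by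
            rintro (_ | _ | ⟨a, b⟩) (_ | _ | ⟨c, d⟩) h
            · rfl
            · exact absurd h (hpn' i false)
            · exfalso
              simp only [Option.elim_none, Option.elim_some] at h
              have h' : gg τ x (i, false) = gg τ x (i.succAbove c, d) := h
              have := hg h'
              rw [Prod.mk.injEq] at this
              exact Fin.succAbove_ne i c this.1.symm
            · exact absurd h.symm (hpn' i false)
            · rfl
            · exact absurd h.symm (hpn' _ _)
            · exfalso
              simp only [Option.elim_none, Option.elim_some] at h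
              have h' : gg τ x (i.succAbove a, b) = gg τ x (i, false) := h
              have := hg h'
              rw [Prod.mk.injEq] at this
              exact Fin.succAbove_ne i a this.1
            · exact absurd h (hpn' _ _)
            · simp only [Option.elim_some] at h
              have := hg h
              rw [Prod.mk.injEq] at this
              rw [Option.some.injEq, Option.some.injEq, Prod.mk.injEq]
              exact ⟨Fin.succAbove_right_injective this.1, this.2⟩
          refine ⟨mem_univ _, hinj, ?_⟩
          have hmem : ∀ c d, gg τ x (c, d) ∈ insert p (pts τ x) := fun c d =>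
            mem_insert_of_mem (mem_image_of_mem _ (mem_univ _))
          have him : (univ.image fun o : Option (Option (Fin k × Bool)) => o.elim (x i)
              fun o' => o'.elim p fun p => gg τ x (i.succAbove p.1, p.2)) =
              (insert p (pts τ x)).erase (τ (x i)) := by
            apply eq_of_subset_of_card_le
            · intro y hy
              rw [mem_image] at hy
              obtain ⟨o, -, rfl⟩ := hy
              rw [mem_erase]
              rcases o with _ | _ | ⟨a, b⟩
              · simp only [Option.elim_none]
                refine ⟨fun h => ?_, hmem i false⟩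
                exact (pts_moved (hT τ hτ) hg (mem_pts.2 ⟨i, Or.inl rfl⟩) :
                  τ (x i) ≠ x i) h.symm
              · simp only [Option.elim_none, Option.elim_some]
                exact ⟨fun h => hpn' i true h.symm, mem_insert_self _ _⟩
              · simp only [Option.elim_some]
                refine ⟨fun h => ?_, hmem _ _⟩
                have h' : gg τ x (i.succAbove a, b) = gg τ x (i, true) := h
                have := hg h'
                rw [Prod.mk.injEq] at this
                exact Fin.succAbove_ne i a this.1
            · rw [card_erase_of_mem (show τ (x i) ∈ insert p (pts τ x) from hmem i true),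
                card_insert_of_notMem hpn, pts_card hg,
                card_image_of_injective _ hinj, card_univ, Fintype.card_option,
                Fintype.card_option, Fintype.card_prod, Fintype.card_fin, Fintype.card_bool]
              omega
          rw [him]
          exact hqF
        · simp only [Option.elim_none, Option.elim_some]
          exact hp
        · intro j
          simp [gg]
      · rintro ⟨τ, p, x⟩ hq ⟨τ', p', x'⟩ hq' h
        simp only [Sigma.mk.injEq, heq_eq_eq] at h
        obtain ⟨h1, rfl⟩ := h
        rw [Prod.mk.injEq, Prod.mk.injEq]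
        refine ⟨rfl, by simpa using congrFun h1 (some none), ?_⟩
        funext j
        by_cases hj : j = i
        · have := congrFun h1 none
          simp only [Option.elim_none] at this
          rw [hj]
          exact this
        · obtain ⟨j', rfl⟩ := Fin.exists_succAbove_eq hj
          have := congrFun h1 (some (some (j', false)))
          simpa [gg] using this
    refine h1.trans ?_
    rw [card_sigma, mul_comm]
    refine (sum_le_card_nsmul _ _ ν fun f hf => ?_).trans (by rw [smul_eq_mul])
    refine hν (fun o => f (some o)) ?_
    rw [hO, mem_filter] at hf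
    intro p q hpq
    exact Option.some_injective _ (hf.2.1 hpq)
  calc A.card ≤ (C ∪ univ.biUnion B).card := card_le_card hAB
    _ ≤ C.card + (univ.biUnion B).card := card_union_le _ _
    _ ≤ C.card + ∑ i, (B i).card := Nat.add_le_add_left card_biUnion_le _
    _ ≤ μ * O'.card + ∑ _i : Fin (k + 1), ν * O.card :=
      Nat.add_le_add hCc (sum_le_sum fun i _ => hBi i)
    _ = μ * O'.card + (k + 1) * (ν * O.card) := by
      rw [sum_const, card_univ, Fintype.card_fin, smul_eq_mul]
    _ ≤ μ * ((2 * k + 2).factorial * F.card) +
        (k + 1) * (ν * ((2 * k + 2).factorial * F.card)) :=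
      Nat.add_le_add (Nat.mul_le_mul_left _ hOc') (Nat.mul_le_mul_left _ (Nat.mul_le_mul_left _ hOc))
    _ = _ := by ring

end Pool.Agent.V11328.PG
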