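import Mathlib

/-!
# The projective line
-/

set_option autoImplicit false

namespace Pool.Agent.V11328.PG

open OnePoint Matrix

variable {K : Type} [Field K] [DecidableEq K]

/-- the matrix with the entries `a, b, c, d` -/
noncomputable def mx (a b c d : K) (h : a * d - b * c ≠ 0) : GL (Fin 2) K :=
  Matrix.GeneralLinearGroup.mkOfDetNeZero !![a, b; c, d] (by rw [Matrix.det_fin_two_of]; exact h)

omit [DecidableEq K] in
theorem mx00 (a b c d : K) (h : a * d - b * c ≠ 0) : mx a b c d h 0 0 = a := rfl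
omit [DecidableEq K] in
theorem mx01 (a b c d : K) (h : a * d - b * c ≠ 0) : mx a b c d h 0 1 = b := rfl
omit [DecidableEq K] in
theorem mx10 (a b c d : K) (h : a * d - b * c ≠ 0) : mx a b c d h 1 0 = c := rfl
omit [DecidableEq K] in
theorem mx11 (a b c d : K) (h : a * d - b * c ≠ 0) : mx a b c d h 1 1 = d := rfl

theorem exists_two (a b : OnePoint K) (hab : a ≠ b) :
    ∃ g : GL (Fin 2) K, g • a = ∞ ∧ g • b = ((0 : K) : OnePoint K) := by
  induction a using OnePoint.rec with
  | infty =>
    induction b using OnePoint.rec with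
    | infty => exact absurd rfl hab
    | coe t =>
      refine ⟨mx 1 (-t) 0 1 (by simp), ?_, ?_⟩
      · rw [smul_infty_eq_ite, mx10, if_pos rfl]
      · rw [smul_some_eq_ite, mx00, mx01, mx10, mx11]
        simp
  | coe s =>
    induction b using OnePoint.rec with
    | infty =>
      refine ⟨mx 0 1 1 (-s) (by simp), ?_, ?_⟩
      · rw [smul_some_eq_ite, mx00, mx01, mx10, mx11]
        simp
      · rw [smul_infty_eq_ite, mx10, mx00]
        simp
    | coe t =>
      have hst : s ≠ t := fun h => hab (by rw [h])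
      refine ⟨mx 1 (-t) 1 (-s) (by simpa using fun h => hst (by linear_combination -h)), ?_, ?_⟩
      · rw [smul_some_eq_ite, mx00, mx01, mx10, mx11]
        simp
      · rw [smul_some_eq_ite, mx00, mx01, mx10, mx11]
        have : (1 : K) * t + -s ≠ 0 := fun h => hst (by linear_combination -h)
        rw [if_neg this]
        simp

theorem exists_three (a b c : OnePoint K) (hab : a ≠ b) (hac : a ≠ c) (hbc : b ≠ c) :
    ∃ g : GL (Fin 2) K, g • a = ∞ ∧ g • b = ((0 : K) : OnePoint K) ∧
      g • c = ((1 : K) : OnePoint K) := by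
  obtain ⟨g, h1, h2⟩ := exists_two a b hab
  have h3 : g • c ≠ ∞ := fun h => hac (smul_left_cancel g (h1.trans h.symm))
  have h4 : g • c ≠ ((0 : K) : OnePoint K) := fun h => hbc (smul_left_cancel g (h2.trans h.symm))
  obtain ⟨u, hu⟩ : ∃ u : K, g • c = (u : OnePoint K) := by
    generalize g • c = d at h3
    induction d using OnePoint.rec with
    | infty => exact absurd rfl h3
    | coe u => exact ⟨u, rfl⟩
  have hu0 : u ≠ 0 := by
    rintro rfl
    exact h4 hu
  refine ⟨mx 1 0 0 u (by simpa using hu0) * g, ?_, ?_, ?_⟩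
  · rw [mul_smul, h1, smul_infty_eq_ite, mx10, if_pos rfl]
  · rw [mul_smul, h2, smul_some_eq_ite, mx00, mx01, mx10, mx11]
    simp [hu0]
  · rw [mul_smul, hu, smul_some_eq_ite, mx00, mx01, mx10, mx11]
    simp [hu0]

theorem trivial_of_std (g : GL (Fin 2) K) (h1 : g • (∞ : OnePoint K) = ∞)
    (h2 : g • ((0 : K) : OnePoint K) = ((0 : K) : OnePoint K))
    (h3 : g • ((1 : K) : OnePoint K) = ((1 : K) : OnePoint K)) (x : OnePoint K) : g • x = x := by
  have e1 : g 1 0 = 0 := smul_infty_eq_self_iff.1 h1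
  have hd : g 0 0 * g 1 1 - g 0 1 * g 1 0 ≠ 0 := by
    rw [← Matrix.det_fin_two]
    exact g.det_ne_zero
  rw [e1, mul_zero, sub_zero] at hd
  have h11 : g 1 1 ≠ 0 := right_ne_zero_of_mul hd
  rw [smul_some_eq_ite, e1, mul_zero, mul_zero, zero_add, zero_add, if_neg h11] at h2
  have e2 : g 0 1 = 0 := by
    have := OnePoint.coe_eq_coe.1 h2
    rcases div_eq_zero_iff.1 this with h | h
    · exact h
    · exact absurd h h11
  rw [smul_some_eq_ite, e1, e2, zero_mul, zero_add, add_zero, mul_one, if_neg h11] at h3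
  have e3 : g 0 0 = g 1 1 := by
    have := OnePoint.coe_eq_coe.1 h3
    rwa [div_eq_one_iff_eq h11] at this
  induction x using OnePoint.rec with
  | infty => exact h1
  | coe t =>
    rw [smul_some_eq_ite, e1, e2, e3, zero_mul, zero_add, add_zero, if_neg h11,
      mul_div_cancel_left₀ _ h11]

theorem trivial_of_three (g : GL (Fin 2) K) {a b c : OnePoint K} (hab : a ≠ b) (hac : a ≠ c)
    (hbc : b ≠ c) (h1 : g • a = a) (h2 : g • b = b) (h3 : g • c = c) (x : OnePoint K) :
    g • x = x := by
  obtain ⟨h, e1, e2, e3⟩ := exists_three a b c hab hac hbc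
  have k : ∀ y : OnePoint K, (h * g * h⁻¹) • y = y := by
    refine trivial_of_std _ ?_ ?_ ?_
    · rw [mul_smul, mul_smul, ← e1, inv_smul_smul, h1]
    · rw [mul_smul, mul_smul, ← e2, inv_smul_smul, h2]
    · rw [mul_smul, mul_smul, ← e3, inv_smul_smul, h3]
  have := k (h • x)
  rw [mul_smul, mul_smul, inv_smul_smul] at this
  exact smul_left_cancel h this

theorem exists_map {a b c a' b' c' : OnePoint K} (hab : a ≠ b) (hac : a ≠ c) (hbc : b ≠ c)
    (hab' : a' ≠ b') (hac' : a' ≠ c') (hbc' : b' ≠ c') :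
    ∃ g : GL (Fin 2) K, g • a = a' ∧ g • b = b' ∧ g • c = c' := by
  obtain ⟨h, e1, e2, e3⟩ := exists_three a b c hab hac hbc
  obtain ⟨h', e1', e2', e3'⟩ := exists_three a' b' c' hab' hac' hbc'
  refine ⟨h'⁻¹ * h, ?_, ?_, ?_⟩
  · rw [mul_smul, e1, ← e1', inv_smul_smul]
  · rw [mul_smul, e2, ← e2', inv_smul_smul]
  · rw [mul_smul, e3, ← e3', inv_smul_smul]

theorem involution (g : GL (Fin 2) K) {a b : OnePoint K} (hab : a ≠ b) (h1 : g • a = b)
    (h2 : g • b = a) (x : OnePoint K) : g • g • x = x := by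
  obtain ⟨h, e1, e2⟩ := exists_two a b hab
  have k : ∀ k : GL (Fin 2) K, k • (∞ : OnePoint K) = ((0 : K) : OnePoint K) →
      k • ((0 : K) : OnePoint K) = ∞ → ∀ y : OnePoint K, k • k • y = y := by
    intro k k1 k2 y
    have hd : k 0 0 * k 1 1 - k 0 1 * k 1 0 ≠ 0 := by
      rw [← Matrix.det_fin_two]
      exact k.det_ne_zero
    have c1 : k 1 0 ≠ 0 := by
      intro h0
      rw [smul_infty_eq_ite, if_pos h0] at k1
      exact OnePoint.infty_ne_coe _ k1
    have c2 : k 1 1 = 0 := by
      by_contra h0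
      rw [smul_some_eq_ite, mul_zero, zero_add, if_neg h0] at k2
      exact OnePoint.coe_ne_infty _ k2
    have c3 : k 0 0 = 0 := by
      rw [smul_infty_eq_ite, if_neg c1] at k1
      have := OnePoint.coe_eq_coe.1 k1
      rcases div_eq_zero_iff.1 this with h | h
      · exact h
      · exact absurd h c1
    rw [c2, c3, zero_mul, zero_sub, neg_ne_zero] at hd
    have c4 : k 0 1 ≠ 0 := left_ne_zero_of_mul hd
    induction y using OnePoint.rec with
    | infty => rw [k1, k2]
    | coe t =>
      by_cases ht : t = 0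
      · rw [ht, k2, k1]
      · have : k • (t : OnePoint K) = ((k 0 1 / (k 1 0 * t) : K) : OnePoint K) := by
          rw [smul_some_eq_ite, c2, c3, add_zero, zero_mul, zero_add,
            if_neg (mul_ne_zero c1 ht)]
        rw [this, smul_some_eq_ite, c2, c3, add_zero, zero_mul, zero_add, if_neg]
        · congr 1
          field_simp
        · exact mul_ne_zero c1 (div_ne_zero c4 (mul_ne_zero c1 ht))
  have k' := k (h * g * h⁻¹) (by rw [mul_smul, mul_smul, ← e1, inv_smul_smul, h1, e2])
    (by rw [mul_smul, mul_smul, ← e2, inv_smul_smul, h2, e1]) (h • x)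
  simp only [mul_smul, inv_smul_smul] at k'
  exact smul_left_cancel h k'

theorem char_two [CharP K 2] (g : GL (Fin 2) K) (hg : ∀ x : OnePoint K, g • g • x = x)
    {a b : OnePoint K} (hab : a ≠ b) (h1 : g • a = a) (h2 : g • b = b) (x : OnePoint K) :
    g • x = x := by
  obtain ⟨h, e1, e2⟩ := exists_two a b hab
  have k : ∀ k : GL (Fin 2) K, (∀ x : OnePoint K, k • k • x = x) →
      k • (∞ : OnePoint K) = ∞ → k • ((0 : K) : OnePoint K) = ((0 : K) : OnePoint K) →
      ∀ y : OnePoint K, k • y = y := by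
    intro k k0 k1 k2
    refine trivial_of_std k k1 k2 ?_
    have c1 : k 1 0 = 0 := smul_infty_eq_self_iff.1 k1
    have hd : k 0 0 * k 1 1 - k 0 1 * k 1 0 ≠ 0 := by
      rw [← Matrix.det_fin_two]
      exact k.det_ne_zero
    rw [c1, mul_zero, sub_zero] at hd
    have c11 : k 1 1 ≠ 0 := right_ne_zero_of_mul hd
    rw [smul_some_eq_ite, c1, mul_zero, mul_zero, zero_add, zero_add, if_neg c11] at k2
    have c2 : k 0 1 = 0 := by
      have := OnePoint.coe_eq_coe.1 k2
      rcases div_eq_zero_iff.1 this with h | h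
      · exact h
      · exact absurd h c11
    have e : ∀ t : K, k • (t : OnePoint K) = ((k 0 0 / k 1 1 * t : K) : OnePoint K) := by
      intro t
      rw [smul_some_eq_ite, c1, c2, zero_mul, zero_add, add_zero, if_neg c11]
      congr 1
      field_simp
    have := k0 ((1 : K) : OnePoint K)
    rw [e, e] at this
    have := OnePoint.coe_eq_coe.1 this
    rw [e]
    congr 1
    have h2 : (2 : K) = 0 := by exact_mod_cast CharP.cast_eq_zero K 2
    have h3 : (k 0 0 / k 1 1 - 1) ^ 2 = 0 := by
      linear_combination this + (1 - k 0 0 / k 1 1) * h2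
    have h4 : k 0 0 / k 1 1 - 1 = 0 := by simpa using h3
    linear_combination h4
  have k' := k (h * g * h⁻¹) (fun y => by
      simp only [mul_smul, inv_smul_smul]
      rw [hg, smul_inv_smul])
    (by rw [mul_smul, mul_smul, ← e1, inv_smul_smul, h1])
    (by rw [mul_smul, mul_smul, ← e2, inv_smul_smul, h2]) (h • x)
  simp only [mul_smul, inv_smul_smul] at k'
  exact smul_left_cancel h k'

end Pool.Agent.V11328.PG
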