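import Pool.Agent.V11328.PG.Even
import Pool.Agent.V11328.PG.Line

/-!
# Hypergraphs on the projective line
-/

set_option autoImplicit false

open Finset

namespace Pool.Agent.V11328.PG

open OnePoint

theorem inj_card (α V : Type) [Fintype α] [DecidableEq α] [Fintype V] [DecidableEq V] :
    (univ.filter fun y : α → V => Function.Injective y).card =
      (Fintype.card V).descFactorial (Fintype.card α) := by
  rw [← Fintype.card_embedding_eq, ← Fintype.card_subtype]
  exact Fintype.card_congr (Equiv.subtypeInjectiveEquivEmbedding α V)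

/-- Families of involutions without fixed points which exchange any `k` disjoint pairs equally
often. -/
theorem uniform {V : Type} [Fintype V] [DecidableEq V] {k l : ℕ} (F : Finset (Finset V))
    (hF : ∀ e ∈ F, e.card = 2 * k + 1)
    (hcov : ∀ S : Finset V, S.card = 2 * k + 2 → ∃ e ∈ F, e ⊆ S) (T : Finset (Equiv.Perm V))
    (hT : ∀ τ ∈ T, ∀ y, τ (τ y) = y ∧ τ y ≠ y) (hinv : ∀ τ ∈ T, ∀ e ∈ F, e.image τ ∈ F)
    (hl0 : 0 < l) (hl : ∀ y : Fin k × Bool → V, Function.Injective y →
      {τ | τ ∈ T ∧ Swaps τ y}.ncard = l) :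
    (Fintype.card V).choose (2 * k + 1) ≤ (k + 1) * F.card := by
  classical
  have hl' : ∀ y : Fin k × Bool → V, Function.Injective y →
      (T.filter fun τ => Swaps τ y).card = l := by
    intro y hy
    rw [← hl y hy, ← Set.ncard_coe_finset]
    congr 1
    ext τ
    simp
  have h1 := odd_bound F hF hcov T (fun τ hτ y => (hT τ hτ y).1) hinv
    (fun y hy => (hl' y hy).le)
  have hc : ∀ τ ∈ T, τ.support.card = Fintype.card V := by
    intro τ hτ
    rw [← card_univ]
    congr 1
    ext y
    simp [(hT τ hτ y).2]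
  have h2 : (univ.filter fun y : Fin k × Bool → V => Function.Injective y).card =
      (Fintype.card V).descFactorial (2 * k) := by
    rw [inj_card, Fintype.card_prod, Fintype.card_fin, Fintype.card_bool, mul_comm]
  have h3 : l * (Fintype.card V).descFactorial (2 * k) =
      ∑ τ ∈ T, ∏ j ∈ range k, (τ.support.card - 2 * j) := by
    rw [← h2, mul_comm, ← smul_eq_mul, ← sum_const]
    rw [sum_congr rfl fun y hy => (hl' y (mem_filter.1 hy).2).symm]
    simp only [card_filter]
    rw [sum_comm]
    refine sum_congr rfl fun τ hτ => ?_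
    rw [← count (fun y => (hT τ hτ y).1) k, ← card_filter, filter_filter]
    refine card_bij' (fun y _ => fun j => y (j, false)) (fun x _ => gg τ x) ?_ ?_ ?_ ?_
    · intro y hy
      rw [mem_filter] at hy ⊢
      refine ⟨mem_univ _, ?_⟩
      have : gg τ (fun j => y (j, false)) = y := by
        funext ⟨j, b⟩
        cases b
        · rfl
        · exact hy.2.2 j
      unfold Good
      rw [this]
      exact hy.2.1
    · intro x hx
      rw [mem_filter] at hx ⊢
      exact ⟨mem_univ _, hx.2, fun j => by simp⟩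
    · intro y hy
      rw [mem_filter] at hy
      funext ⟨j, b⟩
      cases b
      · rfl
      · exact hy.2.2 j
    · intro x _
      rfl
  have h4 : l * (Fintype.card V).descFactorial (2 * k + 1) =
      ∑ τ ∈ T, ∏ j ∈ range (k + 1), (τ.support.card - 2 * j) := by
    rw [Nat.descFactorial_succ]
    calc l * ((Fintype.card V - 2 * k) * (Fintype.card V).descFactorial (2 * k))
        = (Fintype.card V - 2 * k) * (l * (Fintype.card V).descFactorial (2 * k)) := by ring
      _ = _ := by
        rw [h3, mul_sum]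
        refine sum_congr rfl fun τ hτ => ?_
        rw [prod_range_succ, hc τ hτ]
        ring
  rw [← h4, Nat.descFactorial_eq_factorial_mul_choose] at h1
  have h5 : (l * (2 * k + 1).factorial) * (Fintype.card V).choose (2 * k + 1) ≤
      (l * (2 * k + 1).factorial) * ((k + 1) * F.card) := by
    calc _ = l * ((2 * k + 1).factorial * (Fintype.card V).choose (2 * k + 1)) := by ring
      _ ≤ _ := h1
      _ = _ := by ring
  exact Nat.le_of_mul_le_mul_left h5 (Nat.mul_pos hl0 (Nat.factorial_pos _))

variable {K : Type} [Field K] [DecidableEq K] [Fintype K]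

noncomputable local instance : DecidableEq (OnePoint K) := Classical.decEq _

open Classical in
/-- the involutions in `PGL(2, K)` -/
noncomputable def TT (K : Type) [Field K] [DecidableEq K] [Fintype K] :
    Finset (Equiv.Perm (OnePoint K)) :=
  univ.filter fun τ => (∃ g : GL (Fin 2) K, ∀ x, τ x = g • x) ∧ (∀ x, τ (τ x) = x) ∧ ∃ x, τ x ≠ x

theorem mem_TT {τ : Equiv.Perm (OnePoint K)} : τ ∈ TT K ↔
    (∃ g : GL (Fin 2) K, ∀ x, τ x = g • x) ∧ (∀ x, τ (τ x) = x) ∧ ∃ x, τ x ≠ x := by
  unfold TT
  rw [mem_filter]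
  simp

theorem TT_of_swap {a b : OnePoint K} (hab : a ≠ b) (g : GL (Fin 2) K) (h1 : g • a = b)
    (h2 : g • b = a) : MulAction.toPerm g ∈ TT K := by
  rw [mem_TT]
  refine ⟨⟨g, fun x => rfl⟩, fun x => involution g hab h1 h2 x, a, ?_⟩
  rw [MulAction.toPerm_apply, h1]
  exact hab.symm

theorem TT_unique {τ τ' : Equiv.Perm (OnePoint K)} (h : τ ∈ TT K) (h' : τ' ∈ TT K)
    {a b c : OnePoint K} (hab : a ≠ b) (hac : a ≠ c) (hbc : b ≠ c) (h1 : τ a = τ' a)
    (h2 : τ b = τ' b) (h3 : τ c = τ' c) : τ = τ' := by
  obtain ⟨⟨g, hg⟩, -, -⟩ := mem_TT.1 h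
  obtain ⟨⟨g', hg'⟩, -, -⟩ := mem_TT.1 h'
  rw [hg, hg'] at h1 h2 h3
  have k : ∀ x : OnePoint K, (g'⁻¹ * g) • x = x := by
    apply trivial_of_three _ hab hac hbc
    · rw [mul_smul, h1, inv_smul_smul]
    · rw [mul_smul, h2, inv_smul_smul]
    · rw [mul_smul, h3, inv_smul_smul]
  ext x
  rw [hg, hg']
  have := k x
  rw [mul_smul, inv_smul_eq_iff] at this
  rw [this]

theorem fixd_le {τ : Equiv.Perm (OnePoint K)} (h : τ ∈ TT K) : (fixd τ).card ≤ 2 := by
  by_contra hc
  push Not at hc
  obtain ⟨a, ha, b, hb, c, hcc, hab, hac, hbc⟩ := two_lt_card.1 hc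
  rw [fixd, mem_filter] at ha hb hcc
  obtain ⟨⟨g, hg⟩, -, x, hx⟩ := mem_TT.1 h
  apply hx
  rw [hg]
  exact trivial_of_three g hab hac hbc (by rw [← hg]; exact ha.2) (by rw [← hg]; exact hb.2)
    (by rw [← hg]; exact hcc.2) x

theorem fixd_le_one [CharP K 2] {τ : Equiv.Perm (OnePoint K)} (h : τ ∈ TT K) :
    (fixd τ).card ≤ 1 := by
  by_contra hc
  push Not at hc
  obtain ⟨a, ha, b, hb, hab⟩ := one_lt_card.1 hc
  rw [fixd, mem_filter] at ha hb
  obtain ⟨⟨g, hg⟩, h2, x, hx⟩ := mem_TT.1 h
  apply hx
  rw [hg]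
  exact char_two g (fun x => by rw [← hg, ← hg, h2]) hab (by rw [← hg]; exact ha.2)
    (by rw [← hg]; exact hb.2) x

theorem supp_add {V : Type} [Fintype V] [DecidableEq V] (τ : Equiv.Perm V) :
    τ.support.card + (fixd τ).card = Fintype.card V := by
  rw [fixd, ← card_univ, add_comm]
  have : τ.support = univ.filter fun y => ¬ τ y = y := by
    ext y
    simp
  rw [this]
  exact card_filter_add_card_filter_not _

/-- Five-uniform hypergraphs on the projective line. -/
theorem five (F : Finset (Finset (OnePoint K))) (hF : ∀ e ∈ F, e.card = 5)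
    (hcov : ∀ S : Finset (OnePoint K), S.card = 6 → ∃ e ∈ F, e ⊆ S)
    (hinv : ∀ g : GL (Fin 2) K, ∀ e ∈ F, e.image (fun x => g • x) ∈ F) :
    (Fintype.card (OnePoint K)).descFactorial 4 * (Fintype.card (OnePoint K) - 6) ≤
      360 * F.card := by
  classical
  set n := Fintype.card (OnePoint K) with hn
  have hinv' : ∀ τ ∈ TT K, ∀ e ∈ F, e.image τ ∈ F := by
    intro τ hτ e he
    obtain ⟨⟨g, hg⟩, -, -⟩ := mem_TT.1 hτ
    have := hinv g e he
    have h : (τ : OnePoint K → OnePoint K) = fun x => g • x := funext hg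
    rw [h]
    exact this
  have h1 := odd_bound (k := 2) (l := 1) F hF hcov (TT K) (fun τ hτ => (mem_TT.1 hτ).2.1) hinv'
    (by
      intro y hy
      rw [card_le_one]
      intro τ hτ τ' hτ'
      rw [mem_filter] at hτ hτ'
      have a1 := hτ.2 0
      have a2 := hτ.2 1
      have b1 := hτ'.2 0
      have b2 := hτ'.2 1
      refine TT_unique hτ.1 hτ'.1 (a := y (0, false)) (b := y (0, true)) (c := y (1, false))
        (fun h => by simpa using hy h) (fun h => by simpa using hy h)
        (fun h => by simpa using hy h) (by rw [a1, b1]) ?_ (by rw [a2, b2])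
      rw [← a1, (mem_TT.1 hτ.1).2.1, a1, ← b1, (mem_TT.1 hτ'.1).2.1])
  have h2 : n.descFactorial 4 ≤ ∑ τ ∈ TT K, ∏ j ∈ range 2, (τ.support.card - 2 * j) := by
    have e1 : (univ.filter fun y : Fin 2 × Bool → OnePoint K => Function.Injective y).card =
        n.descFactorial 4 := by
      rw [inj_card, Fintype.card_prod, Fintype.card_fin, Fintype.card_bool]
    rw [← e1]
    have e2 : ∑ τ ∈ TT K, ∏ j ∈ range 2, (τ.support.card - 2 * j) =
        (((TT K) ×ˢ (univ : Finset (Fin 2 → OnePoint K))).filter fun q => Good q.1 q.2).card := by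
      rw [card_filter, sum_product]
      refine sum_congr rfl fun τ hτ => ?_
      rw [← count (mem_TT.1 hτ).2.1 2, card_filter]
    rw [e2]
    refine card_le_card_of_surjOn (fun q => gg q.1 q.2) ?_
    intro y hy
    simp only [coe_filter, mem_univ, true_and, Set.mem_ofPred_eq] at hy
    obtain ⟨g, g1, g2, g3⟩ := exists_map (a := y (0, false)) (b := y (0, true))
      (c := y (1, false)) (a' := y (0, true)) (b' := y (0, false)) (c' := y (1, true))
      (fun h => by simpa using hy h) (fun h => by simpa using hy h)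
      (fun h => by simpa using hy h) (fun h => by simpa using hy h)
      (fun h => by simpa using hy h) (fun h => by simpa using hy h)
    have hg : gg (MulAction.toPerm g) (fun j => y (j, false)) = y := by
      funext ⟨j, b⟩
      cases b
      · rfl
      · fin_cases j
        · exact g1
        · exact g3
    refine ⟨(MulAction.toPerm g, fun j => y (j, false)), ?_, hg⟩
    simp only [coe_filter, mem_product, mem_univ, and_true, Set.mem_ofPred_eq]
    refine ⟨TT_of_swap (fun h => by simpa using hy h) g g1 g2, ?_⟩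
    unfold Good
    rw [hg]
    exact hy
  have h3 : (n.descFactorial 4) * (n - 6) ≤
      ∑ τ ∈ TT K, ∏ j ∈ range (2 + 1), (τ.support.card - 2 * j) := by
    refine (Nat.mul_le_mul_right _ h2).trans ?_
    rw [sum_mul]
    refine sum_le_sum fun τ hτ => ?_
    rw [prod_range_succ (fun j => τ.support.card - 2 * j) 2]
    apply Nat.mul_le_mul_left
    have := supp_add τ
    have := fixd_le hτ
    omega
  refine h3.trans (h1.trans ?_)
  have : (2 * 2 + 1).factorial = 120 := rfl
  rw [this]
  omega

/-- Four-uniform hypergraphs on the projective line, characteristic two. -/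
theorem four [CharP K 2] (F : Finset (Finset (OnePoint K))) (hF : ∀ e ∈ F, e.card = 4)
    (hcov : ∀ S : Finset (OnePoint K), S.card = 5 → ∃ e ∈ F, e ⊆ S)
    (hinv : ∀ g : GL (Fin 2) K, ∀ e ∈ F, e.image (fun x => g • x) ∈ F) :
    (Fintype.card (OnePoint K)).descFactorial 4 ≤ 72 * F.card := by
  classical
  set n := Fintype.card (OnePoint K) with hn
  have hinv' : ∀ τ ∈ TT K, ∀ e ∈ F, e.image τ ∈ F := by
    intro τ hτ e he
    obtain ⟨⟨g, hg⟩, -, -⟩ := mem_TT.1 hτ
    have := hinv g e he
    have h : (τ : OnePoint K → OnePoint K) = fun x => g • x := funext hg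
    rw [h]
    exact this
  have h1 := even_bound (k := 1) (μ := 1) (ν := 1) F hF hcov (TT K)
    (fun τ hτ => (mem_TT.1 hτ).2.1) hinv'
    (by
      intro y hy
      have hc : ((TT K).filter fun τ => Swaps τ y).card ≤ 1 := by
        rw [card_le_one]
        intro τ hτ τ' hτ'
        rw [mem_filter] at hτ hτ'
        have a1 := hτ.2 0
        have a2 := hτ.2 1
        have b1 := hτ'.2 0
        have b2 := hτ'.2 1
        refine TT_unique hτ.1 hτ'.1 (a := y (0, false)) (b := y (0, true)) (c := y (1, false))
          (fun h => by simpa using hy h) (fun h => by simpa using hy h)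
          (fun h => by simpa using hy h) (by rw [a1, b1]) ?_ (by rw [a2, b2])
        rw [← a1, (mem_TT.1 hτ.1).2.1, a1, ← b1, (mem_TT.1 hτ'.1).2.1]
      refine (sum_le_card_nsmul _ _ 1 fun τ hτ => fixd_le_one (mem_filter.1 hτ).1).trans ?_
      rw [smul_eq_mul, mul_one]
      exact hc)
    (by
      intro z hz
      rw [card_le_one]
      intro τ hτ τ' hτ'
      rw [mem_filter] at hτ hτ'
      have a0 := hτ.2.1
      have b0 := hτ'.2.1
      have a1 : τ (z (Option.some (0, false))) = z (Option.some (0, true)) := hτ.2.2 0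
      have b1 : τ' (z (Option.some (0, false))) = z (Option.some (0, true)) := hτ'.2.2 0
      refine TT_unique hτ.1 hτ'.1 (a := z none) (b := z (Option.some (0, false)))
        (c := z (Option.some (0, true)))
        (fun h => by simpa using hz h) (fun h => by simpa using hz h)
        (fun h => by simpa using hz h) (by rw [a0, b0]) (by rw [a1, b1]) ?_
      rw [← a1, (mem_TT.1 hτ.1).2.1, a1, ← b1, (mem_TT.1 hτ'.1).2.1])
  have h2 : n.descFactorial 3 ≤ ∑ τ ∈ TT K, (fixd τ).card * τ.support.card := by
    have e1 : (univ.filter fun y : Fin 3 → OnePoint K => Function.Injective y).card =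
        n.descFactorial 3 := by
      rw [inj_card, Fintype.card_fin]
    rw [← e1]
    have e2 : ∑ τ ∈ TT K, (fixd τ).card * τ.support.card =
        ((TT K).sigma fun τ => fixd τ ×ˢ τ.support).card := by
      rw [card_sigma]
      exact sum_congr rfl fun τ _ => (card_product _ _).symm
    rw [e2]
    refine card_le_card_of_surjOn (fun q => ![q.2.1, q.2.2, q.1 q.2.2]) ?_
    intro y hy
    simp only [coe_filter, mem_univ, true_and, Set.mem_ofPred_eq] at hy
    have d01 : y 0 ≠ y 1 := fun h => by simpa using hy h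
    have d02 : y 0 ≠ y 2 := fun h => by simpa using hy h
    have d12 : y 1 ≠ y 2 := fun h => by simpa using hy h
    obtain ⟨g, g1, g2, g3⟩ := exists_map d01 d02 d12 d02 d01 d12.symm
    refine ⟨⟨MulAction.toPerm g, y 0, y 1⟩, ?_, ?_⟩
    · simp only [coe_sigma, Set.mem_sigma_iff, mem_coe, mem_product]
      refine ⟨TT_of_swap d12 g g2 g3, ?_, ?_⟩
      · rw [fixd, mem_filter]
        exact ⟨mem_univ _, g1⟩
      · rw [Equiv.Perm.mem_support, MulAction.toPerm_apply, g2]
        exact d12.symm
    · funext i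
      fin_cases i
      · rfl
      · rfl
      · exact g2
  have h3 : (n - 3) * n.descFactorial 3 ≤
      ∑ τ ∈ TT K, (fixd τ).card * ∏ j ∈ range (1 + 1), (τ.support.card - 2 * j) := by
    refine (Nat.mul_le_mul_left _ h2).trans ?_
    rw [mul_sum]
    refine sum_le_sum fun τ hτ => ?_
    have s1 := supp_add τ
    have s2 := fixd_le_one hτ
    simp only [prod_range_succ, prod_range_zero, one_mul, mul_zero, Nat.sub_zero, mul_one]
    rcases Nat.eq_zero_or_pos (fixd τ).card with h0 | h0
    · rw [h0]
      simp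
    · have : τ.support.card - 2 = n - 3 := by omega
      rw [this]
      apply le_of_eq
      ring
  have h4 : n.descFactorial 4 = (n - 3) * n.descFactorial 3 := Nat.descFactorial_succ n 3
  rw [h4]
  refine h3.trans (h1.trans ?_)
  have : (2 * 1 + 2).factorial = 24 := rfl
  rw [this]
  omega

end Pool.Agent.V11328.PG
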